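import Pool.Agent.H334R2.CM.S.DIM1
set_option autoImplicit false
set_option linter.unusedSectionVars false
open scoped Matrix MatrixGroups
universe u
namespace CM

namespace DIM4

section
variable {q : ℕ} [Fact q.Prime] {G : Type} [Group G] (D : BN q G)
  {k : Type u} [Field k] [CharP k 2] (ψ : AddChar (ZMod q) k)

lemma n_zero : D.n 0 = 1 := by
  have h := D.n_add 0 0
  rw [add_zero] at h
  exact (mul_eq_left (a := D.n 0)).mp h.symm

lemma d_one : D.d 1 = 1 := by
  have h := D.d_mul 1 1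
  rw [one_mul] at h
  exact (mul_eq_left (a := D.d 1)).mp h.symm

lemma q_ne_two (hq : q % 4 = 3) : q ≠ 2 := by
  rintro rfl
  norm_num at hq

lemma mem_Sq (a : (ZMod q)ˣ) : a ∈ Sq q ↔ IsSquare a := by
  classical
  unfold Sq
  simp

lemma not_sq_neg_one (hq : q % 4 = 3) : ¬ IsSquare (-1 : (ZMod q)ˣ) := by
  rintro ⟨r, hr⟩
  have h : IsSquare (-1 : ZMod q) := by
    refine ⟨(r : ZMod q), ?_⟩
    have := congrArg (fun u : (ZMod q)ˣ => (u : ZMod q)) hr
    simpa using this
  exact (ZMod.exists_sq_eq_neg_one_iff.mp h) hq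

lemma one_mem_Sq : (1 : (ZMod q)ˣ) ∈ Sq q := by
  rw [mem_Sq]
  exact ⟨1, by simp⟩

/-- `a` or `-a` is a square -/
lemma sq_or (hq : q % 4 = 3) (a : (ZMod q)ˣ) : IsSquare a ∨ IsSquare (-a) := by
  have h1 : ∀ x : (ZMod q)ˣ, IsSquare x ↔ x ^ (q / 2) = 1 := by
    intro x
    rw [← ZMod.euler_criterion_units]
    constructor
    · rintro ⟨y, hy⟩
      exact ⟨y, by rw [hy, sq]⟩
    · rintro ⟨y, hy⟩
      exact ⟨y, by rw [← hy, sq]⟩
  have hodd : Odd (q / 2) := by
    rw [Nat.odd_iff]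
    omega
  rw [h1, h1]
  have h2 := ZMod.pow_div_two_eq_neg_one_or_one q (a := (a : ZMod q)) a.ne_zero
  rcases h2 with h2 | h2
  · left
    ext
    push_cast
    exact h2
  · right
    ext
    push_cast
    rw [hodd.neg_pow, h2, neg_neg]

/-- the element `n x` of the group algebra -/
noncomputable def gn (k : Type u) [Field k] (x : ZMod q) : MonoidAlgebra k G :=
  MonoidAlgebra.single (D.n x) 1

lemma coe_eB_one (hq : q % 4 = 3) (l : (ZMod q)ˣ →* kˣ) :
    (eB D l : MonoidAlgebra k G).coeff 1 = 1 := by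
  classical
  unfold eB
  rw [MonoidAlgebra.coeff_sum, Finsupp.finsetSum_apply, Finset.sum_eq_single (1 : (ZMod q)ˣ)]
  · rw [MonoidAlgebra.coeff_sum, Finsupp.finsetSum_apply, Finset.sum_eq_single (0 : ZMod q)]
    · rw [MonoidAlgebra.coeff_single, n_zero, d_one, mul_one, Finsupp.single_eq_same]
      simp
    · intro x _ hx
      rw [MonoidAlgebra.coeff_single, Finsupp.single_apply, if_neg]
      intro h
      rw [D.dn, ← n_zero D, ← mul_one (D.n 0), ← d_one D] at h
      have := (D.inj1 _ _ _ _ h).1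
      simp at this
      exact hx this
    · simp
  · intro a ha ha1
    rw [MonoidAlgebra.coeff_sum, Finsupp.finsetSum_apply]
    refine Finset.sum_eq_zero fun x _ => ?_
    rw [MonoidAlgebra.coeff_single, Finsupp.single_apply, if_neg]
    intro h
    rw [D.dn, ← n_zero D, ← mul_one (D.n 0), ← d_one D] at h
    rcases (D.inj1 _ _ _ _ h).2 with h2 | h2
    · exact ha1 h2
    · rw [mem_Sq, h2] at ha
      exact not_sq_neg_one hq ha
  · intro h
    exact absurd one_mem_Sq h

lemma eB_ne_zero (hq : q % 4 = 3) (l : (ZMod q)ˣ →* kˣ) : (eB D l : MonoidAlgebra k G) ≠ 0 := by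
  intro h
  have := coe_eB_one D hq l
  rw [h] at this
  simp at this

lemma bb (hq : q % 4 = 3) (l : (ZMod q)ˣ →* kˣ) :
    (eB D l : MonoidAlgebra k G) * eB D l = eB D l := by
  rw [eB_mul D l hq, if_pos rfl]

/-- the element `b w b` -/
noncomputable def J (l : (ZMod q)ˣ →* kˣ) : MonoidAlgebra k G :=
  eB D l * gw D * eB D l

lemma single_mul (g h : G) : (MonoidAlgebra.single (g * h) 1 : MonoidAlgebra k G) =
    MonoidAlgebra.single g 1 * MonoidAlgebra.single h 1 := by
  rw [MonoidAlgebra.single_mul_single, one_mul]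

lemma b_borel (hq : q % 4 = 3) (l : (ZMod q)ˣ →* kˣ) (x : ZMod q) (a : (ZMod q)ˣ) :
    eB D l * MonoidAlgebra.single (D.n x * D.d a) 1 * eB D l = (l a : k) • eB D l := by
  rw [single_mul, ← mul_assoc, eB_n D l, mul_assoc]
  change eB D l * (gd D a * eB D l) = _
  rw [d_eB D l hq, mul_smul_comm, bb D hq]

lemma b_big (hq : q % 4 = 3) (l : (ZMod q)ˣ →* kˣ) (x : ZMod q) (a : (ZMod q)ˣ) (y : ZMod q) :
    eB D l * MonoidAlgebra.single (D.n x * D.w * D.d a * D.n y) 1 * eB D l = (l a : k) • J D l := by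
  rw [single_mul, single_mul, single_mul]
  have e : eB D l * (MonoidAlgebra.single (D.n x) 1 * MonoidAlgebra.single D.w 1 *
      MonoidAlgebra.single (D.d a) 1 * MonoidAlgebra.single (D.n y) 1) * eB D l =
      (eB D l * MonoidAlgebra.single (D.n x) 1) * gw D * (gd D a *
        (MonoidAlgebra.single (D.n y) 1 * eB D l)) := by
    unfold gw gd
    simp only [mul_assoc]
  rw [e, eB_n D l, n_eB D l, d_eB D l hq, mul_smul_comm]
  rfl

lemma b_g (hq : q % 4 = 3) (l : (ZMod q)ˣ →* kˣ) (g : G) :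
    eB D l * MonoidAlgebra.single g 1 * eB D l ∈ Submodule.span k {eB D l, J D l} := by
  rcases D.cover g with ⟨x, a, rfl⟩ | ⟨x, a, y, rfl⟩
  · rw [b_borel D hq]
    exact Submodule.smul_mem _ _ (Submodule.subset_span (by simp))
  · rw [b_big D hq]
    exact Submodule.smul_mem _ _ (Submodule.subset_span (by simp))

lemma b_x (hq : q % 4 = 3) (l : (ZMod q)ˣ →* kˣ) (x : MonoidAlgebra k G) :
    eB D l * x * eB D l ∈ Submodule.span k {eB D l, J D l} := by
  induction x using MonoidAlgebra.induction_on with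
  | of g => exact b_g D hq l g
  | add x y hx hy =>
    rw [mul_add, add_mul]
    exact Submodule.add_mem _ hx hy
  | smul r x hx =>
    rw [mul_smul_comm, smul_mul_assoc]
    exact Submodule.smul_mem _ _ hx

lemma cor_le (hq : q % 4 = 3) (l : (ZMod q)ˣ →* kˣ) :
    cor k (eB D l : MonoidAlgebra k G) (eB D l) = Submodule.span k {eB D l, J D l} := by
  apply le_antisymm
  · rintro x ⟨h1, h2⟩
    have := b_x D hq l x
    rwa [h1, h2] at this
  · rw [Submodule.span_le]
    intro x hx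
    rcases hx with hx | hx
    · rw [hx]
      exact ⟨bb D hq l, bb D hq l⟩
    · have hx' : x = J D l := hx
      rw [hx']
      unfold J
      refine ⟨?_, ?_⟩
      · rw [← mul_assoc, ← mul_assoc, bb D hq]
      · rw [mul_assoc, bb D hq]

lemma J_zero (hq : q % 4 = 3) (l : (ZMod q)ˣ →* kˣ) (hl : l ≠ 1) :
    (J D l : MonoidAlgebra k G) = 0 := by
  obtain ⟨a, ha⟩ : ∃ a, l a ≠ 1 := by
    by_contra h
    push Not at h
    exact hl (MonoidHom.ext h)
  have h1 : (l a : k) • (J D l : MonoidAlgebra k G) = (l a⁻¹ : k) • J D l := by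
    have e1 := b_big D hq l 0 a 0 (k := k)
    rw [n_zero, one_mul, mul_one, D.wd] at e1
    have e2 : eB D l * MonoidAlgebra.single (D.d a⁻¹ * D.w) 1 * eB D l =
        (l a⁻¹ : k) • (J D l : MonoidAlgebra k G) := by
      rw [single_mul, ← mul_assoc]
      change eB D l * gd D a⁻¹ * _ * _ = _
      rw [eB_d D l hq, smul_mul_assoc, smul_mul_assoc]
      rfl
    rw [← e1, e2]
  have h2 : ((l a : k) - (l a⁻¹ : k)) • (J D l : MonoidAlgebra k G) = 0 := by
    rw [sub_smul, h1, sub_self]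
  rcases smul_eq_zero.mp h2 with h | h
  · exfalso
    apply ha
    have h3 : (l a : k) = ((l a)⁻¹ : kˣ) := by
      rw [sub_eq_zero, map_inv] at h
      exact h
    have h4 : (l a : k) * (l a : k) = 1 := by
      nth_rewrite 1 [h3]
      rw [← Units.val_mul, inv_mul_cancel, Units.val_one]
    have h5 : ((l a : k) - 1) ^ 2 = 0 := by
      rw [sub_sq, sq, h4, CharTwo.two_eq_zero]
      simp
      exact CharTwo.add_self_eq_zero 1
    have h6 : (l a : k) = 1 := by
      have := pow_eq_zero_iff (two_ne_zero) |>.mp h5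
      exact sub_eq_zero.mp this
    ext
    rw [h6, Units.val_one]
  · exact h


/-! ### the trivial character -/

/-- the number of elements of the Borel subgroup is odd -/
lemma card_k (hq : q % 4 = 3) : ((Sq q).card : k) * (q : k) = 1 ∧ (q : k) = 1 := by
  classical
  have hq1 : (q : k) = 1 := by
    have : q % 2 = 1 := by omega
    have h2 : (q : k) = ((q % 2 : ℕ) : k) := by
      nth_rewrite 1 [← Nat.mod_add_div q 2]
      rw [Nat.cast_add, Nat.cast_mul, Nat.cast_ofNat, CharTwo.two_eq_zero (R := k)]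
      simp
    rw [h2, this, Nat.cast_one]
  refine ⟨?_, hq1⟩
  rw [hq1, mul_one]
  -- `2 |Sq| = q - 1`
  have h1 : 2 * (Sq q).card = q - 1 := by
    have e1 : (Finset.univ : Finset (ZMod q)ˣ) = Sq q ∪ (Sq q).image (fun a => -a) := by
      ext a
      simp only [Finset.mem_univ, Finset.mem_union, Finset.mem_image, true_iff]
      rcases sq_or hq a with h | h
      · left
        exact (mem_Sq a).mpr h
      · right
        exact ⟨-a, (mem_Sq _).mpr h, neg_neg a⟩
    have e2 : Disjoint (Sq q) ((Sq q).image (fun a => -a)) := by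
      rw [Finset.disjoint_left]
      intro a ha hb
      obtain ⟨b, hb', rfl⟩ := Finset.mem_image.mp hb
      rw [mem_Sq] at ha hb'
      apply not_sq_neg_one hq
      have : (-1 : (ZMod q)ˣ) = -b * b⁻¹ := by simp
      rw [this]
      exact ha.mul hb'.inv
    have e3 : (Finset.univ : Finset (ZMod q)ˣ).card = q - 1 := by
      rw [Finset.card_univ, ZMod.card_units]
    rw [← e3, e1, Finset.card_union_of_disjoint e2,
      Finset.card_image_of_injective _ neg_injective]
    ring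
  have h3 : (Sq q).card % 2 = 1 := by omega
  have h2 : ((Sq q).card : k) = (((Sq q).card % 2 : ℕ) : k) := by
    nth_rewrite 1 [← Nat.mod_add_div (Sq q).card 2]
    rw [Nat.cast_add, Nat.cast_mul, Nat.cast_ofNat, CharTwo.two_eq_zero (R := k)]
    simp
  rw [h2, h3, Nat.cast_one]

lemma eB_one_eq : (eB D (1 : (ZMod q)ˣ →* kˣ) : MonoidAlgebra k G) =
    ∑ a ∈ Sq q, ∑ x : ZMod q, MonoidAlgebra.single (D.d a * D.n x) 1 := by
  unfold eB
  simp

lemma J_term_zero (hq : q % 4 = 3) (a : (ZMod q)ˣ) :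
    eB D (1 : (ZMod q)ˣ →* kˣ) * gw D * MonoidAlgebra.single (D.d a * D.n 0) 1 * gw D *
      eB D (1 : (ZMod q)ˣ →* kˣ) = (eB D (1 : (ZMod q)ˣ →* kˣ) : MonoidAlgebra k G) := by
  have e : eB D (1 : (ZMod q)ˣ →* kˣ) * gw D * MonoidAlgebra.single (D.d a * D.n 0) 1 * gw D *
      eB D (1 : (ZMod q)ˣ →* kˣ) = (eB D (1 : (ZMod q)ˣ →* kˣ) : MonoidAlgebra k G) *
      MonoidAlgebra.single (D.n 0 * D.d a⁻¹) 1 * eB D (1 : (ZMod q)ˣ →* kˣ) := by
    have e1 : (MonoidAlgebra.single (D.n 0 * D.d a⁻¹) 1 : MonoidAlgebra k G) =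
        gw D * MonoidAlgebra.single (D.d a * D.n 0) 1 * gw D := by
      unfold gw
      rw [← single_mul, ← single_mul]
      congr 1
      rw [n_zero, one_mul, mul_one, D.wd, mul_assoc, D.ww, mul_one]
    rw [e1]
    simp only [mul_assoc]
  rw [e, b_borel D hq]
  simp

lemma J_term (hq : q % 4 = 3) (a u : (ZMod q)ˣ) :
    eB D (1 : (ZMod q)ˣ →* kˣ) * gw D * MonoidAlgebra.single (D.d a * D.n (u : ZMod q)) 1 * gw D *
      eB D (1 : (ZMod q)ˣ →* kˣ) = (J D (1 : (ZMod q)ˣ →* kˣ) : MonoidAlgebra k G) := by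
  have e : eB D (1 : (ZMod q)ˣ →* kˣ) * gw D * MonoidAlgebra.single (D.d a * D.n (u : ZMod q)) 1 *
      gw D * eB D (1 : (ZMod q)ˣ →* kˣ) = ((eB D (1 : (ZMod q)ˣ →* kˣ) : MonoidAlgebra k G) *
      gd D a⁻¹) * MonoidAlgebra.single (D.n (-((u⁻¹ : (ZMod q)ˣ) : ZMod q)) * D.w * D.d u *
        D.n (-((u⁻¹ : (ZMod q)ˣ) : ZMod q))) 1 * eB D (1 : (ZMod q)ˣ →* kˣ) := by
    rw [← D.wnw]
    have e1 : (gd D a⁻¹ * MonoidAlgebra.single (D.w * D.n (u : ZMod q) * D.w) 1 :
        MonoidAlgebra k G) =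
        gw D * MonoidAlgebra.single (D.d a * D.n (u : ZMod q)) 1 * gw D := by
      unfold gw gd
      rw [← single_mul, ← single_mul, ← single_mul]
      congr 1
      simp only [← mul_assoc]
      rw [D.wd]
    rw [mul_assoc (eB D 1) (gd D a⁻¹), e1]
    simp only [mul_assoc]
  rw [e, eB_d D _ hq, smul_mul_assoc, smul_mul_assoc, b_big D hq]
  simp

lemma JJ (hq : q % 4 = 3) : (J D (1 : (ZMod q)ˣ →* kˣ) : MonoidAlgebra k G) *
    J D (1 : (ZMod q)ˣ →* kˣ) = eB D (1 : (ZMod q)ˣ →* kˣ) := by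
  classical
  have e : (J D (1 : (ZMod q)ˣ →* kˣ) : MonoidAlgebra k G) * J D (1 : (ZMod q)ˣ →* kˣ) =
      eB D (1 : (ZMod q)ˣ →* kˣ) * gw D * eB D (1 : (ZMod q)ˣ →* kˣ) * gw D *
        eB D (1 : (ZMod q)ˣ →* kˣ) := by
    have e0 : (J D (1 : (ZMod q)ˣ →* kˣ) : MonoidAlgebra k G) * J D (1 : (ZMod q)ˣ →* kˣ) =
      eB D (1 : (ZMod q)ˣ →* kˣ) * gw D * (eB D (1 : (ZMod q)ˣ →* kˣ) *
        eB D (1 : (ZMod q)ˣ →* kˣ)) * gw D * eB D (1 : (ZMod q)ˣ →* kˣ) := by
      unfold J
      simp only [mul_assoc]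
    rw [e0, bb D hq]
  rw [e]
  nth_rewrite 2 [eB_one_eq D]
  rw [Finset.mul_sum, Finset.sum_mul, Finset.sum_mul]
  have h1 : ∀ a ∈ Sq q, (eB D (1 : (ZMod q)ˣ →* kˣ) * gw D *
      ∑ x : ZMod q, MonoidAlgebra.single (D.d a * D.n x) 1) * gw D * eB D (1 : (ZMod q)ˣ →* kˣ) =
      (eB D (1 : (ZMod q)ˣ →* kˣ) : MonoidAlgebra k G) := by
    intro a _
    rw [Finset.mul_sum, Finset.sum_mul, Finset.sum_mul,
      ← Finset.add_sum_erase _ _ (Finset.mem_univ (0 : ZMod q)), J_term_zero D hq]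
    have h2 : ∀ x ∈ Finset.univ.erase (0 : ZMod q), eB D (1 : (ZMod q)ˣ →* kˣ) * gw D *
        MonoidAlgebra.single (D.d a * D.n x) 1 * gw D * eB D (1 : (ZMod q)ˣ →* kˣ) =
        (J D (1 : (ZMod q)ˣ →* kˣ) : MonoidAlgebra k G) := by
      intro x hx
      have hx0 : x ≠ 0 := (Finset.mem_erase.mp hx).1
      have := J_term D hq a (Units.mk0 x hx0) (k := k)
      simpa using this
    rw [Finset.sum_congr rfl h2, Finset.sum_const, Finset.card_erase_of_mem (Finset.mem_univ _),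
      Finset.card_univ, ZMod.card]
    have h3 : (q - 1) • (J D (1 : (ZMod q)ˣ →* kˣ) : MonoidAlgebra k G) = 0 := by
      have hc : (((q - 1 : ℕ) : k)) = 0 := by
        rw [Nat.cast_sub (Fact.out (p := q.Prime)).one_le, (card_k (k := k) hq).2]
        simp
      rw [← Nat.cast_smul_eq_nsmul k, hc, zero_smul]
    rw [h3, add_zero]
  rw [Finset.sum_congr rfl h1, Finset.sum_const]
  have hc := (card_k (k := k) hq).1
  rw [(card_k (k := k) hq).2, mul_one] at hc
  rw [← Nat.cast_smul_eq_nsmul k, hc, one_smul]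

lemma J_coeff_one (l : (ZMod q)ˣ →* kˣ) :
    (J D l : MonoidAlgebra k G).coeff 1 = 0 := by
  classical
  unfold J eB gw
  simp only [Finset.sum_mul, Finset.mul_sum, MonoidAlgebra.single_mul_single,
    MonoidAlgebra.coeff_sum, Finsupp.finsetSum_apply, MonoidAlgebra.coeff_single,
    Finsupp.single_apply]
  refine Finset.sum_eq_zero fun a _ => Finset.sum_eq_zero fun x _ => Finset.sum_eq_zero fun a' _ =>
    Finset.sum_eq_zero fun x' _ => ?_
  rw [if_neg]
  intro h
  have h' : (1 : G) = D.n 0 * D.d 1 := by rw [n_zero, d_one, mul_one]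
  rw [h'] at h
  refine D.disj 0 1 ((a' : ZMod q) ^ 2 * x') (a'⁻¹ * a) x (h.symm.trans ?_)
  have e := D.wd a'⁻¹
  rw [inv_inv] at e
  rw [D.dn, mul_assoc (D.n _) (D.d a') D.w, ← e, D.d_mul]
  simp only [mul_assoc]

end

end DIM4

section
variable {q : ℕ} [Fact q.Prime] {G : Type} [Group G] (D : BN q G)
  {k : Type u} [Field k] [CharP k 2] (ψ : AddChar (ZMod q) k)

theorem eBl_loc (hq : q % 4 = 3) (l : (ZMod q)ˣ →* kˣ) (hl : l ≠ 1) :
    eB D l ≠ 0 ∧ Module.finrank k (cor k (eB D l) (eB D l)) = 1 := by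
  refine ⟨DIM4.eB_ne_zero D hq l, ?_⟩
  rw [DIM4.cor_le D hq, DIM4.J_zero D hq l hl]
  have : Submodule.span k {eB D l, 0} = Submodule.span k {eB D l} := by
    rw [Set.pair_comm, Submodule.span_insert_zero]
  rw [this]
  exact finrank_span_singleton (DIM4.eB_ne_zero D hq l)


theorem eB1_loc (hq : q % 4 = 3) :
    IsLoc k (eB D (1 : (ZMod q)ˣ →* kˣ)) ∧
      Module.finrank k (cor k (eB D (1 : (ZMod q)ˣ →* kˣ)) (eB D (1 : (ZMod q)ˣ →* kˣ))) = 2 := by
  classical
  have hb0 := DIM4.eB_ne_zero D hq (1 : (ZMod q)ˣ →* kˣ)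
  have hJJ := DIM4.JJ D hq (k := k)
  have hbJ : (eB D (1 : (ZMod q)ˣ →* kˣ) : MonoidAlgebra k G) * DIM4.J D 1 = DIM4.J D 1 := by
    unfold DIM4.J
    rw [← mul_assoc, ← mul_assoc, DIM4.bb D hq]
  have hJb : (DIM4.J D (1 : (ZMod q)ˣ →* kˣ) : MonoidAlgebra k G) * eB D 1 = DIM4.J D 1 := by
    unfold DIM4.J
    rw [mul_assoc, DIM4.bb D hq]
  have hbb := DIM4.bb D hq (1 : (ZMod q)ˣ →* kˣ)
  refine ⟨⟨hb0, hbb, ?_⟩, ?_⟩
  · intro x hx
    rw [DIM4.cor_le D hq, Submodule.mem_span_pair] at hx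
    obtain ⟨c1, c2, rfl⟩ := hx
    refine ⟨c1 + c2, 2, ?_⟩
    have e1 : c1 • eB D (1 : (ZMod q)ˣ →* kˣ) + c2 • DIM4.J D 1 -
        (c1 + c2) • eB D (1 : (ZMod q)ˣ →* kˣ) =
        c2 • ((DIM4.J D 1 : MonoidAlgebra k G) - eB D 1) := by
      rw [add_smul, smul_sub]
      abel
    rw [e1, smul_pow, sq (DIM4.J D 1 - eB D 1), sub_mul, mul_sub, mul_sub, hJJ, hJb, hbJ, hbb]
    have e2 : (eB D (1 : (ZMod q)ˣ →* kˣ) : MonoidAlgebra k G) - DIM4.J D 1 -
        (DIM4.J D 1 - eB D 1) = (2 : k) • (eB D 1 - DIM4.J D 1) := by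
      rw [two_smul]
      abel
    rw [e2, CharTwo.two_eq_zero (R := k), zero_smul, smul_zero]
  · rw [DIM4.cor_le D hq]
    have hli : LinearIndependent k ![(eB D (1 : (ZMod q)ˣ →* kˣ) : MonoidAlgebra k G),
        DIM4.J D 1] := by
      rw [LinearIndependent.pair_iff]
      intro s t hst
      have h1 : s = 0 := by
        have := congrArg (fun y : MonoidAlgebra k G => y.coeff 1) hst
        simp only [MonoidAlgebra.coeff_add, MonoidAlgebra.coeff_smul, Finsupp.add_apply,
          Finsupp.smul_apply, DIM4.coe_eB_one D hq, DIM4.J_coeff_one D, smul_eq_mul, mul_one,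
          mul_zero, add_zero, MonoidAlgebra.coeff_zero, Finsupp.zero_apply] at this
        exact this
      refine ⟨h1, ?_⟩
      rw [h1, zero_smul, zero_add] at hst
      rcases smul_eq_zero.mp hst with h | h
      · exact h
      · exfalso
        rw [h, mul_zero] at hJJ
        exact hb0 hJJ.symm
    have h := finrank_span_eq_card hli
    rw [Matrix.range_cons, Matrix.range_cons, Matrix.range_empty, Set.union_empty,
      Set.singleton_union, Fintype.card_fin] at h
    exact h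

/-- completeness -/
theorem FULLG (hq : q % 4 = 3) (hψ : ψ.IsPrimitive) (M : Type u) [AddCommGroup M]
    [Module (MonoidAlgebra k G) M] (hM : IsSimpleModule (MonoidAlgebra k G) M) :
    (∃ m : M, eB D (1 : (ZMod q)ˣ →* kˣ) • m ≠ 0) ∨ (∃ m : M, eU D ψ 1 • m ≠ 0) ∨
      ∃ m : M, eU D ψ (-1) • m ≠ 0 := by
  classical
  by_contra hcon
  push Not at hcon
  obtain ⟨hB, h1, h2⟩ := hcon
  have hq2 := DIM4.q_ne_two (q := q) hq
  have hs : ∀ (e : ZMod q), (∀ m : M, eU D ψ e • m = 0) → ∀ (s : (ZMod q)ˣ) (m : M),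
      eU D ψ (e * (s : ZMod q) ^ 2) • m = 0 := by
    intro e he s m
    have h := d_eU D ψ s⁻¹ e
    rw [inv_inv] at h
    have h3 : eU D ψ (e * (s : ZMod q) ^ 2) • m =
        (eU D ψ (e * (s : ZMod q) ^ 2) * gd D s⁻¹) • ((gd D s : MonoidAlgebra k G) • m) := by
      rw [← mul_smul, mul_assoc]
      have : (gd D s⁻¹ * gd D s : MonoidAlgebra k G) = 1 := by
        unfold gd
        rw [← DIM4.single_mul, ← D.d_mul, inv_mul_cancel, DIM4.d_one, MonoidAlgebra.one_def]
      rw [this, mul_one]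
    rw [h3, ← h, mul_smul, he, smul_zero]
  have hall : ∀ c : ZMod q, c ≠ 0 → ∀ m : M, eU D ψ c • m = 0 := by
    intro c hc m
    rcases DIM4.sq_or hq (Units.mk0 c hc) with ⟨s, hs'⟩ | ⟨s, hs'⟩
    · have hc' : c = 1 * (s : ZMod q) ^ 2 := by
        have := congrArg (fun u : (ZMod q)ˣ => (u : ZMod q)) hs'
        simp only [Units.val_mk0, Units.val_mul] at this
        rw [this]
        ring
      rw [hc']
      exact hs 1 h1 s m
    · have hc' : c = (-1) * (s : ZMod q) ^ 2 := by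
        have := congrArg (fun u : (ZMod q)ˣ => (u : ZMod q)) hs'
        simp only [Units.val_mk0, Units.val_mul, Units.val_neg] at this
        rw [neg_eq_iff_eq_neg] at this
        rw [this]
        ring
      rw [hc']
      exact hs (-1) h2 s m
  have h0 : ∀ m : M, eU D ψ 0 • m = m := by
    intro m
    have h := sum_eU D (k := k) ψ hq2 hψ
    have h3 : (∑ c, eU D ψ c) • m = eU D ψ 0 • m := by
      rw [Finset.sum_smul]
      rw [Finset.sum_eq_single (0 : ZMod q)]
      · intro c _ hc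
        exact hall c hc m
      · simp
    rw [← h3, h, one_smul]
  have hn : ∀ (b : ZMod q) (m : M), (MonoidAlgebra.single (D.n b) 1 : MonoidAlgebra k G) • m = m := by
    intro b m
    have h := n_eU D (k := k) ψ 0 b
    rw [zero_mul, AddChar.map_zero_eq_one, one_smul] at h
    nth_rewrite 1 [← h0 m]
    rw [← mul_smul, h, h0]
  have hwd : ∀ (a : (ZMod q)ˣ) (m : M), (gw D : MonoidAlgebra k G) • (gd D a : MonoidAlgebra k G) • m = m := by
    intro a m
    have h := congrArg (fun g => (MonoidAlgebra.single g 1 : MonoidAlgebra k G)) (D.wnw a)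
    simp only [DIM4.single_mul] at h
    have h3 := congrArg (fun y : MonoidAlgebra k G => y • m) h
    simp only [mul_smul] at h3
    rw [hn, hn, hn, ← mul_smul] at h3
    have hww : (MonoidAlgebra.single D.w 1 * MonoidAlgebra.single D.w 1 : MonoidAlgebra k G) = 1 := by
      rw [← DIM4.single_mul, D.ww, MonoidAlgebra.one_def]
    rw [hww, one_smul] at h3
    exact h3.symm
  have hgd1 : (gd D 1 : MonoidAlgebra k G) = 1 := by
    unfold gd
    rw [DIM4.d_one, MonoidAlgebra.one_def]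
  have hw : ∀ m : M, (gw D : MonoidAlgebra k G) • m = m := by
    intro m
    have := hwd 1 m
    rwa [hgd1, one_smul] at this
  have hd : ∀ (a : (ZMod q)ˣ) (m : M), (gd D a : MonoidAlgebra k G) • m = m := by
    intro a m
    have := hwd a m
    rwa [hw] at this
  have hM' : Nontrivial M := hM.nontrivial
  obtain ⟨m, hm⟩ := exists_ne (0 : M)
  apply hm
  have h5 := hB m
  rw [DIM4.eB_one_eq (k := k)] at h5
  have h6 : (∑ a ∈ Sq q, ∑ x : ZMod q, (MonoidAlgebra.single (D.d a * D.n x) 1 : MonoidAlgebra k G)) • m =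
      ((((Sq q).card * q : ℕ)) : MonoidAlgebra k G) • m := by
    rw [Finset.sum_smul]
    have h7 : ∀ a ∈ Sq q, (∑ x : ZMod q, (MonoidAlgebra.single (D.d a * D.n x) 1 : MonoidAlgebra k G)) • m
        = (q : ℕ) • m := by
      intro a _
      rw [Finset.sum_smul]
      have h8 : ∀ x ∈ (Finset.univ : Finset (ZMod q)),
          (MonoidAlgebra.single (D.d a * D.n x) 1 : MonoidAlgebra k G) • m = m := by
        intro x _
        rw [DIM4.single_mul, mul_smul, hn]
        exact hd a m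
      rw [Finset.sum_congr rfl h8, Finset.sum_const, Finset.card_univ, ZMod.card]
    rw [Finset.sum_congr rfl h7, Finset.sum_const, smul_smul, Nat.cast_smul_eq_nsmul]
  rw [h6] at h5
  have h9 : ((((Sq q).card * q : ℕ)) : MonoidAlgebra k G) = 1 := by
    have h10 := (DIM4.card_k (k := k) hq).1
    have h11 : (((Sq q).card * q : ℕ) : k) = 1 := by
      rw [Nat.cast_mul]
      exact h10
    have h12 := congrArg (algebraMap k (MonoidAlgebra k G)) h11
    rw [map_natCast, map_one] at h12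
    exact h12
  rw [h9, one_smul] at h5
  exact h5

end

end CM
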